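import Mathlib
import Pool.Agent.N658.SP.Bcp
import Pool.Agent.N488.BCP.Irr
import Pool.Agent.N694.BCP.Ren

namespace Pool.Agent.Results.MP_458f19_an.RenormFailsBCP

open Cardinal Pool.Agent.N658.SP.Bcp

universe u

/-- Every real normed space containing an isomorphic copy of `ℓ₁(κ⁺)` has an equivalent norm under
which it fails the `(-1)`-ball-covering property for `κ`. -/
theorem result (κ : Cardinal.{u}) (hκ : ℵ₀ ≤ κ) (Γ : Type u) (hΓ : #Γ = Order.succ κ)
    (X : Type u) [NormedAddCommGroup X] [NormedSpace ℝ X] [CompleteSpace X]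
    (hX : ContainsL1 Γ X) :
    ∃ p : Seminorm ℝ X, IsEquivNorm X p ∧ FailsBCP κ X p :=
  Pool.Agent.N694.BCP.stmRen.{u} Pool.Agent.N488.BCP.stmIrr.{u} κ hκ Γ hΓ X hX

end Pool.Agent.Results.MP_458f19_an.RenormFailsBCP
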